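import Mathlib
import Pool.Agent.FINk.Defs
import Pool.Agent.FINk.Main

/-!
A characterisation of the pointed `M`-sets with property (R).

Necessity: colour an element of `FIN_k` by the order in which the letters first appear.
Sufficiency: the Graham-Rothschild theorem gives systems of ultrafilters coherent for all rigid
maps; palindromic products turn them into decreasing chains of coherent idempotents.
-/

namespace Pool.Agent.Results.MP_14f6a1_co.PropertyRIffChain

open Pool.Agent.FINk

/-- Let `M` be a monoid acting on `{0, …, k-1}` with a point `p` whose orbit is everything. Then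
property (R) holds for `(M, k, p)` if and only if there is an enumeration `e 0, …, e (k-1)` of
`{0, …, k-1}` such that every `m ∈ M` maps every initial segment `{e 0, …, e i}` of the
enumeration onto an initial segment `{e 0, …, e j}`. -/
theorem result (k : ℕ) (M : Type*) [Monoid M] [MulAction M (Fin k)] (p : Fin k)
    (hp : ∀ j : Fin k, ∃ m : M, m • p = j) :
    PropertyR M (Fin k) p ↔
      ∃ e : Equiv.Perm (Fin k), ∀ (m : M) (i : Fin k), ∃ j : Fin k,
        (fun a => m • e a) '' Set.Iic i = e '' Set.Iic j :=
  ⟨fun h => enum_of_propertyR k M p hp h, fun ⟨e, he⟩ => propertyR_of_enum k M p hp e he⟩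

end Pool.Agent.Results.MP_14f6a1_co.PropertyRIffChain
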